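import Mathlib

/-!
# A represented Hausdorff space with `𝒴`-quasi-minimal points for every `T₂.₅` space `𝒴`

The space is the countable power `K^ω` of a countable Hausdorff space `K` in which the closures of
any two nonempty open sets meet.  (Here `K` is the set of finite lists of natural numbers; the `k`-th
value of a list is its `k`-th entry, and the code of the list plus one beyond its length; the
subbasic open sets are `{s | the k-th value of s is a + 1}`.)

Given an enumeration operator `Φ` and a finite sequence `σ` of elements of `K`, there is a longer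
finite sequence `τ` such that for every point `x ∈ K^ω` extending `τ` the set `Φ(Nbase(x))` is not
`Nbase(y)` for any `y ∈ 𝒴` or it is c.e.:
* if the domain of `Φ` (as a partial function into `𝒴`) is not dense in the cylinder of `σ`, we can
  leave the domain;
* if it is dense and `Φ` is constant on it, the value is c.e., because it is decidable which basic
  open sets meet the cylinder;
* otherwise `Φ` maps nonempty relatively open sets `U₀`, `U₁` of the cylinder into open sets `V₀`,
  `V₁` with disjoint closures, and we choose the next coordinates in the closures of both `U₀` and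
  `U₁`.
-/

open Encodable
open Nat.Partrec (Code)

namespace Pool.Agent.Results.MP_4f977f_lc.QuasiMinimal

/-- Enumeration reducibility `A ≤ₑ B`: there is a c.e. set `Φ` such that `n ∈ A` iff there is a
finite set `D` (given by a list) with `⟨n, D⟩ ∈ Φ` and `D ⊆ B`. -/
def EnumReducible (A B : Set ℕ) : Prop :=
  ∃ Φ : Set (ℕ × List ℕ), REPred (fun p => p ∈ Φ) ∧
    ∀ n, n ∈ A ↔ ∃ l : List ℕ, (n, l) ∈ Φ ∧ ∀ m ∈ l, m ∈ B

/-- `β` enumerates an open subbasis of the space `X`. -/
def IsSubbasis {X : Type*} [t : TopologicalSpace X] (β : ℕ → Set X) : Prop :=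
  t = TopologicalSpace.generateFrom (Set.range β)

/-- The set `Nbase(x) = {e : x ∈ β_e}`. -/
def Nbase {X : Type*} (β : ℕ → Set X) (x : X) : Set ℕ := {e | x ∈ β e}

/-- The degree of `A` is quasi-minimal with respect to the space `Y` represented by `γ`: the set
`A` is not c.e., and every point `y` with `Nbase(y) ≤ₑ A` has a c.e. set `Nbase(y)`. -/
def IsQuasiMinimal {Y : Type*} (γ : ℕ → Set Y) (A : Set ℕ) : Prop :=
  ¬ REPred (fun n => n ∈ A) ∧
    ∀ y : Y, EnumReducible (Nbase γ y) A → REPred (fun n => n ∈ Nbase γ y)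

/-! ### Computability lemmas -/

theorem rePred_exists {α β : Type*} [Primcodable α] [Primcodable β] {q : α → β → Prop}
    (hq : ComputablePred fun p : α × β => q p.1 p.2) : REPred fun a => ∃ b, q a b := by
  classical
  obtain ⟨f, hf, hqf⟩ := ComputablePred.computable_iff.1 hq
  have hqf' : ∀ a b, q a b ↔ f (a, b) = true := fun a b => by
    have := congrFun hqf (a, b)
    simpa using this
  have h1 : Computable₂ (fun (a : α) (n : ℕ) => ((decode n : Option β).bind fun b =>
      cond (f (a, b)) (some ()) none)) := by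
    refine Computable.option_bind (Computable.decode.comp Computable.snd) ?_
    refine Computable.cond (hf.comp ((Computable.fst.comp Computable.fst).pair Computable.snd))
      (Computable.const _) (Computable.const _)
  have h2 := (Partrec.rfindOpt h1).dom_re
  refine h2.of_eq fun a => ?_
  rw [Nat.rfindOpt_dom]
  constructor
  · rintro ⟨n, u, hu⟩
    rw [Option.mem_def, Option.bind_eq_some_iff] at hu
    obtain ⟨b, -, hb⟩ := hu
    refine ⟨b, (hqf' a b).2 ?_⟩
    by_contra hne
    rw [Bool.not_eq_true] at hne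
    rw [hne] at hb
    simp at hb
  · rintro ⟨b, hb⟩
    refine ⟨encode b, (), ?_⟩
    rw [Option.mem_def, Option.bind_eq_some_iff]
    refine ⟨b, encodek b, ?_⟩
    rw [(hqf' a b).1 hb]
    rfl

theorem exists_code_of_rePred {α : Type*} [Primcodable α] {p : α → Prop} (hp : REPred p) :
    ∃ c : Code, ∀ a, p a ↔ ∃ k, ((Code.evaln k c (encode a)).isSome = true) := by
  obtain ⟨c, hc⟩ := Code.exists_code.1 hp
  refine ⟨c, fun a => ?_⟩
  have h1 : (Code.eval c (encode a)).Dom ↔ p a := by
    rw [hc]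
    simp [encodek, Part.assert]
  rw [← h1, Part.dom_iff_mem]
  constructor
  · rintro ⟨x, hx⟩
    obtain ⟨k, hk⟩ := Code.evaln_complete.1 hx
    exact ⟨k, by rw [Option.mem_def.1 hk]; rfl⟩
  · rintro ⟨k, hk⟩
    obtain ⟨x, hx⟩ := Option.isSome_iff_exists.1 hk
    exact ⟨x, Code.evaln_sound (Option.mem_def.2 hx)⟩


/-! ### The space -/

/-- The `k`-th value of a list `s`: its `k`-th entry, and the code of `s` plus one if there is no
`k`-th entry. -/
def val (s : List ℕ) (k : ℕ) : ℕ := (s[k]?).getD (encode s + 1)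

lemma val_of_length_le {s : List ℕ} {k : ℕ} (h : s.length ≤ k) : val s k = encode s + 1 := by
  simp [val, h]

lemma val_map_range (g : ℕ → ℕ) {N k : ℕ} (h : k < N) : val ((List.range N).map g) k = g k := by
  simp [val, h]

lemma val_replicate {M k : ℕ} (h : k < M) : val (List.replicate M 0) k = 0 := by
  simp [val, h]

/-- The points of our space: sequences of lists. -/
def Pt : Type := ℕ → List ℕ

/-- The subbasis `{x | the k-th value of x i is a + 1}`, where `m = ⟨i, ⟨k, a⟩⟩`. -/
def sub (m : ℕ) : Set Pt :=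
  {x | val (x m.unpair.1) m.unpair.2.unpair.1 = m.unpair.2.unpair.2 + 1}

instance : TopologicalSpace Pt := TopologicalSpace.generateFrom (Set.range sub)

lemma isSubbasis_sub : IsSubbasis sub := rfl

lemma isOpen_sub (m : ℕ) : IsOpen (sub m) :=
  TopologicalSpace.isOpen_generateFrom_of_mem ⟨m, rfl⟩

lemma mem_sub_pair {x : Pt} {i k a : ℕ} :
    x ∈ sub (Nat.pair i (Nat.pair k a)) ↔ val (x i) k = a + 1 := by
  simp [sub]

instance : T2Space Pt := by
  refine ⟨fun x y hxy => ?_⟩
  obtain ⟨i, hi⟩ := Function.ne_iff.1 hxy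
  obtain ⟨k, hk1, hk2⟩ : ∃ k, (x i).length ≤ k ∧ (y i).length ≤ k :=
    ⟨_, le_max_left _ _, le_max_right _ _⟩
  refine ⟨sub (Nat.pair i (Nat.pair k (encode (x i)))), sub (Nat.pair i (Nat.pair k (encode (y i)))),
    isOpen_sub _, isOpen_sub _, ?_, ?_, ?_⟩
  · rw [mem_sub_pair, val_of_length_le hk1]
  · rw [mem_sub_pair, val_of_length_le hk2]
  · rw [Set.disjoint_left]
    intro z hz1 hz2
    rw [mem_sub_pair] at hz1 hz2
    exact hi (encode_injective (by omega))

/-- The basic open set given by a list of indices. -/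
def basic {X : Type*} (β : ℕ → Set X) (l : List ℕ) : Set X := {x | ∀ m ∈ l, x ∈ β m}

lemma basic_append {X : Type*} (β : ℕ → Set X) (l l' : List ℕ) :
    basic β (l ++ l') = basic β l ∩ basic β l' := by
  ext x
  simp only [basic, Set.mem_ofPred_eq, List.mem_append, Set.mem_inter_iff]
  exact ⟨fun h => ⟨fun m hm => h m (Or.inl hm), fun m hm => h m (Or.inr hm)⟩,
    fun h m hm => hm.elim (h.1 m) (h.2 m)⟩

lemma exists_basic {X : Type*} [TopologicalSpace X] {β : ℕ → Set X} (hβ : IsSubbasis β)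
    {O : Set X} (hO : IsOpen O) {x : X} (hx : x ∈ O) : ∃ l, x ∈ basic β l ∧ basic β l ⊆ O := by
  unfold IsSubbasis at hβ
  rw [hβ] at hO
  induction hO with
  | basic s hs =>
    obtain ⟨e, rfl⟩ := hs
    exact ⟨[e], by simpa [basic] using hx, fun y hy => hy e (by simp)⟩
  | univ => exact ⟨[], by simp [basic], fun y _ => trivial⟩
  | inter s t _ _ hs ht =>
    obtain ⟨l, hl, hl'⟩ := hs hx.1
    obtain ⟨m, hm, hm'⟩ := ht hx.2
    exact ⟨l ++ m, by rw [basic_append]; exact ⟨hl, hm⟩,
      by rw [basic_append]; exact Set.inter_subset_inter hl' hm'⟩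
  | sUnion S _ hS =>
    obtain ⟨t, ht, hxt⟩ := hx
    obtain ⟨l, hl, hl'⟩ := hS t ht hxt
    exact ⟨l, hl, hl'.trans (Set.subset_sUnion_of_mem ht)⟩

/-- `x` and `y` agree on the first `n` coordinates. -/
def Agree (n : ℕ) (x y : Pt) : Prop := ∀ i < n, x i = y i

/-- The combinatorial core: basic open subsets of a cylinder have closures which
contain a common smaller cylinder. -/
lemma exists_common (n : ℕ) (x : Pt) (l₀ l₁ : List ℕ)
    (h₀ : ∃ x₀, Agree n x₀ x ∧ x₀ ∈ basic sub l₀) (h₁ : ∃ x₁, Agree n x₁ x ∧ x₁ ∈ basic sub l₁) :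
    ∃ (m : ℕ) (z : Pt), n ≤ m ∧ Agree n z x ∧ ∀ w, Agree m w z → ∀ l, w ∈ basic sub l →
      (∃ w', Agree n w' x ∧ w' ∈ basic sub l ∧ w' ∈ basic sub l₀) ∧
      (∃ w', Agree n w' x ∧ w' ∈ basic sub l ∧ w' ∈ basic sub l₁) := by
  classical
  obtain ⟨M, hM⟩ : ∃ M, ∀ j ∈ l₀ ++ l₁, j < M :=
    ⟨(l₀ ++ l₁).sum + 1, fun j hj => Nat.lt_succ_of_le (List.le_sum_of_mem hj)⟩
  have hM1 : ∀ j ∈ l₀ ++ l₁, j.unpair.1 < M := fun j hj =>
    lt_of_le_of_lt (Nat.unpair_left_le j) (hM j hj)
  have hM2 : ∀ j ∈ l₀ ++ l₁, j.unpair.2.unpair.1 < M := fun j hj =>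
    lt_of_le_of_lt ((Nat.unpair_left_le _).trans (Nat.unpair_right_le j)) (hM j hj)
  let z : Pt := fun i => if i < n then x i else List.replicate M 0
  refine ⟨max n M, z, le_max_left _ _, fun i hi => if_pos hi, ?_⟩
  intro w hw l hl
  have key : ∀ l' : List ℕ, (∀ j ∈ l', j ∈ l₀ ++ l₁) → (∃ x₀, Agree n x₀ x ∧ x₀ ∈ basic sub l') →
      ∃ w', Agree n w' x ∧ w' ∈ basic sub l ∧ w' ∈ basic sub l' := by
    rintro l' hl' ⟨x₀, hx₀, hb⟩
    obtain ⟨N, hN⟩ : ∃ N, M ≤ N ∧ ∀ j ∈ l, j.unpair.2.unpair.1 < N :=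
      ⟨M + l.sum + 1, by omega, fun j hj => by
        have h1 : j ≤ l.sum := List.le_sum_of_mem hj
        have h2 : j.unpair.2.unpair.1 ≤ j := (Nat.unpair_left_le _).trans (Nat.unpair_right_le j)
        omega⟩
    let w' : Pt := fun i => if n ≤ i ∧ i < max n M then
      (List.range N).map (fun k => if k < M then val (x₀ i) k else val (w i) k) else w i
    have hw'1 : ∀ i, ¬ (n ≤ i ∧ i < max n M) → w' i = w i := fun i hi => if_neg hi
    have hw'2 : ∀ i, n ≤ i ∧ i < max n M → w' i =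
      (List.range N).map (fun k => if k < M then val (x₀ i) k else val (w i) k) :=
        fun i hi => if_pos hi
    have hwz : ∀ i, n ≤ i ∧ i < max n M → w i = List.replicate M 0 := fun i hi => by
      rw [hw i hi.2]
      exact if_neg (not_lt.2 hi.1)
    have hwx : ∀ i < n, w i = x i := fun i hi => by
      rw [hw i (lt_of_lt_of_le hi (le_max_left _ _))]
      exact if_pos hi
    refine ⟨w', fun i hi => ?_, fun j hj => ?_, fun j hj => ?_⟩
    · rw [hw'1 i (by omega)]
      exact hwx i hi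
    · have hjw : val (w j.unpair.1) j.unpair.2.unpair.1 = j.unpair.2.unpair.2 + 1 := hl j hj
      change val (w' j.unpair.1) j.unpair.2.unpair.1 = j.unpair.2.unpair.2 + 1
      by_cases hi : n ≤ j.unpair.1 ∧ j.unpair.1 < max n M
      · rw [hw'2 _ hi, val_map_range _ (hN.2 j hj)]
        have hk : ¬ j.unpair.2.unpair.1 < M := by
          intro hk
          rw [hwz _ hi, val_replicate hk] at hjw
          omega
        rw [if_neg hk, hjw]
      · rw [hw'1 _ hi, hjw]
    · have hjw : val (x₀ j.unpair.1) j.unpair.2.unpair.1 = j.unpair.2.unpair.2 + 1 := hb j hj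
      change val (w' j.unpair.1) j.unpair.2.unpair.1 = j.unpair.2.unpair.2 + 1
      have hj1 := hM1 j (hl' j hj)
      have hj2 := hM2 j (hl' j hj)
      by_cases hi : n ≤ j.unpair.1
      · rw [hw'2 _ ⟨hi, lt_of_lt_of_le hj1 (le_max_right _ _)⟩,
          val_map_range _ (lt_of_lt_of_le hj2 hN.1), if_pos hj2, hjw]
      · rw [hw'1 _ (by omega), hwx _ (by omega), ← hx₀ _ (by omega), hjw]
  exact ⟨key l₀ (fun j hj => List.mem_append_left _ hj) h₀,
    key l₁ (fun j hj => List.mem_append_right _ hj) h₁⟩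

/-! ### The nonemptiness of basic open subsets of a cylinder is c.e. -/

/-- Decidable form of membership in a subbasic set. -/
def chk (σ : List (List ℕ)) (j : ℕ) (t : List (List ℕ)) : Prop :=
  val (((σ ++ t)[j.unpair.1]?).getD []) j.unpair.2.unpair.1 = j.unpair.2.unpair.2 + 1

lemma primrec_val : Primrec₂ val := by
  unfold val
  exact Primrec.option_getD.comp (Primrec.list_getElem?.comp Primrec.fst Primrec.snd)
    (Primrec.succ.comp (Primrec.encode.comp Primrec.fst))

lemma primrecRel_chk (σ : List (List ℕ)) : PrimrecRel (chk σ) := by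
  unfold chk
  have hj1 : Primrec fun p : ℕ × List (List ℕ) => p.1.unpair.1 :=
    Primrec.fst.comp (Primrec.unpair.comp Primrec.fst)
  have hj2 : Primrec fun p : ℕ × List (List ℕ) => p.1.unpair.2 :=
    Primrec.snd.comp (Primrec.unpair.comp Primrec.fst)
  have hj21 : Primrec fun p : ℕ × List (List ℕ) => p.1.unpair.2.unpair.1 :=
    Primrec.fst.comp (Primrec.unpair.comp hj2)
  have hj22 : Primrec fun p : ℕ × List (List ℕ) => p.1.unpair.2.unpair.2 :=
    Primrec.snd.comp (Primrec.unpair.comp hj2)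
  have happ : Primrec fun p : ℕ × List (List ℕ) => σ ++ p.2 :=
    Primrec.list_append.comp (Primrec.const σ) Primrec.snd
  have hget : Primrec fun p : ℕ × List (List ℕ) => ((σ ++ p.2)[p.1.unpair.1]?).getD [] :=
    Primrec.option_getD.comp (Primrec.list_getElem?.comp happ hj1) (Primrec.const [])
  exact Primrec.eq.comp (primrec_val.comp hget hj21) (Primrec.succ.comp hj22)

lemma exists_agree_iff (n : ℕ) (x : Pt) (l : List ℕ) :
    (∃ w, Agree n w x ∧ w ∈ basic sub l) ↔
      ∃ t : List (List ℕ), ∀ j ∈ l, chk ((List.range n).map x) j t := by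
  constructor
  · rintro ⟨w, hw, hl⟩
    obtain ⟨N, hN⟩ : ∃ N, ∀ j ∈ l, j.unpair.1 < n + N :=
      ⟨l.sum + 1, fun j hj => by
        have h1 : j ≤ l.sum := List.le_sum_of_mem hj
        have h2 := Nat.unpair_left_le j
        omega⟩
    refine ⟨(List.range N).map fun i => w (n + i), fun j hj => ?_⟩
    have hjw : val (w j.unpair.1) j.unpair.2.unpair.1 = j.unpair.2.unpair.2 + 1 := hl j hj
    unfold chk
    have hget : ((((List.range n).map x) ++ ((List.range N).map fun i => w (n + i)))[j.unpair.1]?).getD []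
        = w j.unpair.1 := by
      by_cases hi : j.unpair.1 < n
      · rw [List.getElem?_append_left (by simpa using hi)]
        simp [hi, hw _ hi]
      · rw [List.getElem?_append_right (by simpa using hi)]
        have h3 : j.unpair.1 - n < N := by have := hN j hj; omega
        simp [h3]
        congr 1
        omega
    rw [hget, hjw]
  · rintro ⟨t, ht⟩
    refine ⟨fun i => ((((List.range n).map x) ++ t)[i]?).getD [], fun i hi => ?_, fun j hj => ht j hj⟩
    change ((((List.range n).map x) ++ t)[i]?).getD [] = x i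
    rw [List.getElem?_append_left (by simpa using hi)]
    simp [hi]

/-- The value of an enumeration operator. -/
def op (Φ : Set (ℕ × List ℕ)) (A : Set ℕ) : Set ℕ := {n | ∃ l : List ℕ, (n, l) ∈ Φ ∧ ∀ m ∈ l, m ∈ A}

lemma rePred_union (Φ : Set (ℕ × List ℕ)) (hΦ : REPred (fun p => p ∈ Φ)) (n : ℕ) (x : Pt) :
    REPred fun m => ∃ l : List ℕ, (m, l) ∈ Φ ∧ ∃ w, Agree n w x ∧ w ∈ basic sub l := by
  obtain ⟨c, hc⟩ := exists_code_of_rePred hΦ
  have h1 : PrimrecPred fun p : ℕ × (List ℕ × ℕ × List (List ℕ)) =>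
      (Code.evaln p.2.2.1 c (encode (p.1, p.2.1))).isSome = true ∧
        ∀ j ∈ p.2.1, chk ((List.range n).map x) j p.2.2.2 := by
    refine PrimrecPred.and ?_ ?_
    · refine Primrec.eq.comp (Primrec.option_isSome.comp ?_) (Primrec.const true)
      refine Code.primrec_evaln.comp (Primrec.pair (Primrec.pair ?_ (Primrec.const c)) ?_)
      · exact Primrec.fst.comp (Primrec.snd.comp Primrec.snd)
      · exact Primrec.encode.comp (Primrec.pair Primrec.fst (Primrec.fst.comp Primrec.snd))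
    · exact (primrecRel_chk _).forall_mem_list.comp (Primrec.fst.comp Primrec.snd)
        (Primrec.snd.comp (Primrec.snd.comp Primrec.snd))
  refine (rePred_exists (q := fun (m : ℕ) (b : List ℕ × ℕ × List (List ℕ)) =>
    (Code.evaln b.2.1 c (encode (m, b.1))).isSome = true ∧
        ∀ j ∈ b.1, chk ((List.range n).map x) j b.2.2) h1.computablePred).of_eq fun m => ?_
  constructor
  · rintro ⟨⟨l, k, t⟩, h2, h3⟩
    exact ⟨l, (hc (m, l)).2 ⟨k, h2⟩, (exists_agree_iff n x l).2 ⟨t, h3⟩⟩
  · rintro ⟨l, h2, h3⟩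
    obtain ⟨k, hk⟩ := (hc (m, l)).1 h2
    obtain ⟨t, ht⟩ := (exists_agree_iff n x l).1 h3
    exact ⟨(l, k, t), hk, ht⟩


/-! ### Meeting one requirement -/

lemma exists_basic_op {X : Type*} {β : ℕ → Set X} {Φ : Set (ℕ × List ℕ)} {x : X} (L : List ℕ)
    (hL : ∀ m ∈ L, m ∈ op Φ (Nbase β x)) :
    ∃ l, x ∈ basic β l ∧ ∀ y ∈ basic β l, ∀ m ∈ L, m ∈ op Φ (Nbase β y) := by
  induction L with
  | nil => exact ⟨[], by simp [basic], by simp⟩
  | cons a L ih =>
    obtain ⟨l, hl, hl'⟩ := ih fun m hm => hL m (List.mem_cons_of_mem _ hm)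
    obtain ⟨l₂, hl₂, hl₂'⟩ := hL a (by simp)
    refine ⟨l₂ ++ l, ?_, ?_⟩
    · rw [basic_append]
      exact ⟨fun m hm => hl₂' m hm, hl⟩
    · intro y hy
      rw [basic_append] at hy
      intro m hm
      rcases List.mem_cons.1 hm with rfl | hm
      · exact ⟨l₂, hl₂, fun k hk => hy.1 k hk⟩
      · exact hl' y hy.2 m hm

/-- `Good γ Φ x`: if `Φ` maps `Nbase(x)` to the set `Nbase(y)` of a point `y` of `Y`, then this
set is c.e. -/
def Good {Y : Type*} (γ : ℕ → Set Y) (Φ : Set (ℕ × List ℕ)) (x : Pt) : Prop :=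
  ∀ y : Y, Nbase γ y = op Φ (Nbase sub x) → REPred fun n => n ∈ Nbase γ y

lemma exists_good {Y : Type*} [TopologicalSpace Y] [T25Space Y] {γ : ℕ → Set Y}
    (hγ : IsSubbasis γ) {Φ : Set (ℕ × List ℕ)} (hΦ : REPred (fun p => p ∈ Φ)) (n : ℕ) (x : Pt) :
    ∃ (m : ℕ) (z : Pt), n ≤ m ∧ Agree n z x ∧ ∀ w, Agree m w z → Good γ Φ w := by
  classical
  -- `D w`: `w` is in the domain of the operator
  let D : Pt → Prop := fun w => ∃ y : Y, Nbase γ y = op Φ (Nbase sub w)
  have good_of_not : ∀ w, ¬ D w → Good γ Φ w := fun w hw y hy => (hw ⟨y, hy⟩).elim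
  by_cases h1 : ∃ l : List ℕ, (∃ w, Agree n w x ∧ w ∈ basic sub l) ∧
      ∀ w, Agree n w x → w ∈ basic sub l → ¬ D w
  · obtain ⟨l, ⟨z, hz, hzl⟩, hl⟩ := h1
    refine ⟨n + l.sum + 1, z, by omega, hz, fun w hw => good_of_not w (hl w ?_ ?_)⟩
    · intro i hi
      rw [hw i (by omega), hz i hi]
    · intro j hj
      have h2 : j ≤ l.sum := List.le_sum_of_mem hj
      have h3 := Nat.unpair_left_le j
      have h4 := hzl j hj
      change val (z j.unpair.1) _ = _ at h4
      change val (w j.unpair.1) _ = _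
      rw [hw _ (by omega), h4]
  · push Not at h1
    -- now the domain is dense in the cylinder
    by_cases h2 : ∀ w₀ w₁, Agree n w₀ x → Agree n w₁ x → D w₀ → D w₁ →
        op Φ (Nbase sub w₀) = op Φ (Nbase sub w₁)
    · -- the operator is constant on its domain
      refine ⟨n, x, le_rfl, fun i _ => rfl, fun w hw y hy => ?_⟩
      have hD : D w := ⟨y, hy⟩
      refine (rePred_union Φ hΦ n x).of_eq fun m => ?_
      rw [hy]
      constructor
      · rintro ⟨l, hl, hl'⟩
        obtain ⟨w₁, hw₁, hw₁l, hw₁D⟩ := h1 l hl'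
        rw [h2 w w₁ hw hw₁ hD hw₁D]
        exact ⟨l, hl, fun k hk => hw₁l k hk⟩
      · rintro ⟨l, hl, hl'⟩
        exact ⟨l, hl, w, hw, fun k hk => hl' k hk⟩
    · push Not at h2
      obtain ⟨w₀, w₁, hw₀, hw₁, ⟨y₀, hy₀⟩, ⟨y₁, hy₁⟩, hne⟩ := h2
      have hy : y₀ ≠ y₁ := by
        rintro rfl
        exact hne (hy₀.symm.trans hy₁)
      obtain ⟨V₀, hV₀, hV₀o, V₁, hV₁, hV₁o, hdisj⟩ := exists_open_nhds_disjoint_closure hy
      have step : ∀ (y : Y) (w : Pt), Nbase γ y = op Φ (Nbase sub w) → ∀ V : Set Y, IsOpen V → y ∈ V →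
          ∃ l, w ∈ basic sub l ∧ ∀ w' ∈ basic sub l, ∀ y', Nbase γ y' = op Φ (Nbase sub w') → y' ∈ V := by
        intro y w hyw V hV hyV
        obtain ⟨L, hL, hLV⟩ := exists_basic hγ hV hyV
        obtain ⟨l, hl, hl'⟩ := exists_basic_op (β := sub) (Φ := Φ) (x := w) L (fun m hm => by
          rw [← hyw]; exact hL m hm)
        refine ⟨l, hl, fun w' hw' y' hy' => hLV fun m hm => ?_⟩
        have := hl' w' hw' m hm
        rw [← hy'] at this
        exact this
      obtain ⟨l₀, hl₀, hl₀'⟩ := step y₀ w₀ hy₀ V₀ hV₀o hV₀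
      obtain ⟨l₁, hl₁, hl₁'⟩ := step y₁ w₁ hy₁ V₁ hV₁o hV₁
      obtain ⟨m, z, hnm, hz, hcommon⟩ := exists_common n x l₀ l₁ ⟨w₀, hw₀, hl₀⟩ ⟨w₁, hw₁, hl₁⟩
      refine ⟨m, z, hnm, hz, fun w hw => good_of_not w ?_⟩
      rintro ⟨y, hyw⟩
      have hcl₀ : y ∈ closure V₀ := by
        rw [mem_closure_iff]
        intro O hO hyO
        obtain ⟨l, hl, hl'⟩ := step y w hyw O hO hyO
        obtain ⟨w', hw', hw'1, hw'2⟩ := (hcommon w hw l hl).1
        obtain ⟨w₂, hw₂, hw₂l, y₂, hy₂⟩ := h1 (l ++ l₀) ⟨w', hw', by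
          rw [basic_append]; exact ⟨hw'1, hw'2⟩⟩
        rw [basic_append] at hw₂l
        exact ⟨y₂, hl' w₂ hw₂l.1 y₂ hy₂, hl₀' w₂ hw₂l.2 y₂ hy₂⟩
      have hcl₁ : y ∈ closure V₁ := by
        rw [mem_closure_iff]
        intro O hO hyO
        obtain ⟨l, hl, hl'⟩ := step y w hyw O hO hyO
        obtain ⟨w', hw', hw'1, hw'2⟩ := (hcommon w hw l hl).2
        obtain ⟨w₂, hw₂, hw₂l, y₂, hy₂⟩ := h1 (l ++ l₁) ⟨w', hw', by
          rw [basic_append]; exact ⟨hw'1, hw'2⟩⟩
        rw [basic_append] at hw₂l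
        exact ⟨y₂, hl' w₂ hw₂l.1 y₂ hy₂, hl₁' w₂ hw₂l.2 y₂ hy₂⟩
      exact Set.disjoint_left.1 hdisj hcl₀ hcl₁

/-! ### The fusion argument -/

/-- A countable family of requirements, each of which can be met by extending any given
finite initial segment, can be met simultaneously. -/
lemma exists_generic {ι : Type*} [Countable ι] (R : ι → Pt → Prop)
    (h : ∀ (a : ι) (n : ℕ) (x : Pt),
      ∃ (m : ℕ) (z : Pt), n ≤ m ∧ Agree n z x ∧ ∀ w, Agree m w z → R a w) :
    ∃ x : Pt, ∀ a, R a x := by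
  classical
  rcases isEmpty_or_nonempty ι with hι | hι
  · exact ⟨fun _ => [], fun a => isEmptyElim a⟩
  obtain ⟨e, he⟩ := exists_surjective_nat ι
  choose f g h1 h2 h3 using h
  -- the sequence of conditions
  let s : ℕ → ℕ × Pt := fun k => Nat.rec (0, fun _ => [])
    (fun k p => (f (e k) p.1 p.2 + 1, g (e k) p.1 p.2)) k
  have hs : ∀ k, s (k + 1) = (f (e k) (s k).1 (s k).2 + 1, g (e k) (s k).1 (s k).2) := fun k => rfl
  have hlt : ∀ k, (s k).1 < (s (k + 1)).1 := fun k => by
    rw [hs]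
    exact Nat.lt_succ_of_le (h1 _ _ _)
  have hmono : StrictMono fun k => (s k).1 := strictMono_nat_of_lt_succ hlt
  have hagree1 : ∀ k, Agree (s k).1 (s (k + 1)).2 (s k).2 := fun k => by
    rw [hs]
    exact h2 _ _ _
  have hagree : ∀ k j, Agree (s k).1 (s (k + j)).2 (s k).2 := fun k j => by
    induction j with
    | zero => exact fun i _ => rfl
    | succ j ih =>
      intro i hi
      rw [← ih i hi]
      exact hagree1 (k + j) i (lt_of_lt_of_le hi (hmono.monotone (Nat.le_add_right k j)))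
  let x : Pt := fun i => (s (i + 1)).2 i
  have hx : ∀ k, Agree (s k).1 x (s k).2 := fun k i hi => by
    have h4 : i + 1 ≤ (s (i + 1)).1 := hmono.id_le (i + 1)
    rcases le_total k (i + 1) with hk | hk
    · obtain ⟨j, hj⟩ := Nat.exists_eq_add_of_le hk
      change (s (i + 1)).2 i = _
      rw [hj]
      exact hagree k j i hi
    · obtain ⟨j, hj⟩ := Nat.exists_eq_add_of_le hk
      change (s (i + 1)).2 i = _
      rw [hj]
      exact (hagree (i + 1) j i (by omega)).symm
  refine ⟨x, fun a => ?_⟩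
  obtain ⟨k, rfl⟩ := he a
  refine h3 (e k) (s k).1 (s k).2 x fun i hi => ?_
  have h5 := hx (k + 1) i (by rw [hs]; exact Nat.lt_succ_of_lt hi)
  rw [hs] at h5
  exact h5

/-- The type of c.e. sets is countable. -/
instance countable_re {α : Type*} [Primcodable α] : Countable {Φ : Set α // REPred fun p => p ∈ Φ} := by
  classical
  choose c hc using fun Φ : {Φ : Set α // REPred fun p => p ∈ Φ} => exists_code_of_rePred Φ.2
  refine Function.Injective.countable (f := c) fun Φ Ψ h => Subtype.ext (Set.ext fun a => ?_)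
  rw [hc Φ a, hc Ψ a, h]

lemma exists_ne_ce (A : Set ℕ) (n : ℕ) (x : Pt) :
    ∃ (m : ℕ) (z : Pt), n ≤ m ∧ Agree n z x ∧ ∀ w, Agree m w z → Nbase sub w ≠ A := by
  classical
  by_cases h : ∃ w, Nbase sub w = A
  · obtain ⟨w₀, rfl⟩ := h
    refine ⟨n + 1, fun i => if i < n then x i else 0 :: w₀ n, by omega, fun i hi => if_pos hi, ?_⟩
    intro w hw hww
    have h1 : w = w₀ := by
      by_contra hne
      obtain ⟨i, hi⟩ := Function.ne_iff.1 hne
      set k := max (w i).length (w₀ i).length with hk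
      have h2 : Nat.pair i (Nat.pair k (encode (w i))) ∈ Nbase sub w := by
        change w ∈ sub _
        rw [mem_sub_pair, val_of_length_le (le_max_left _ _)]
      rw [hww] at h2
      change w₀ ∈ sub _ at h2
      rw [mem_sub_pair, val_of_length_le (le_max_right _ _)] at h2
      exact hi (encode_injective (by omega))
    have h3 := hw n (by omega)
    simp only [lt_irrefl, if_false] at h3
    rw [h1] at h3
    have h4 := congrArg List.length h3
    simp at h4
  · push Not at h
    exact ⟨n, x, le_rfl, fun i _ => rfl, fun w _ => h w⟩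

universe u

/-- There is a represented Hausdorff space `X` such that for every represented `T₂.₅` space `Y`
(even for every sequence of such spaces, simultaneously) some point of `X` is
`Y`-quasi-minimal. -/
theorem result : ∃ (X : Type) (_ : TopologicalSpace X) (β : ℕ → Set X), T2Space X ∧ IsSubbasis β ∧
    ∀ (Y : ℕ → Type u) [∀ i, TopologicalSpace (Y i)] (γ : ∀ i, ℕ → Set (Y i)),
      (∀ i, T25Space (Y i)) → (∀ i, IsSubbasis (γ i)) →
        ∃ x : X, ∀ i, IsQuasiMinimal (γ i) (Nbase β x) := by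
  classical
  refine ⟨Pt, inferInstance, sub, inferInstance, isSubbasis_sub, ?_⟩
  intro Y _ γ hY hγ
  let R : (ℕ × {Φ : Set (ℕ × List ℕ) // REPred fun p => p ∈ Φ}) ⊕ {Φ : Set ℕ // REPred fun p => p ∈ Φ}
      → Pt → Prop := fun a w => Sum.elim (fun q => Good (γ q.1) q.2.1 w) (fun A => Nbase sub w ≠ A.1) a
  obtain ⟨x, hx⟩ := exists_generic R (by
    rintro (⟨i, Φ, hΦ⟩ | A) n x
    · have := hY i
      exact exists_good (hγ i) hΦ n x
    · exact exists_ne_ce A.1 n x)
  refine ⟨x, fun i => ⟨fun hre => hx (Sum.inr ⟨Nbase sub x, hre⟩) rfl, ?_⟩⟩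
  rintro y ⟨Φ, hΦ, hΦ'⟩
  exact hx (Sum.inl (i, ⟨Φ, hΦ⟩)) y (Set.ext hΦ')

end Pool.Agent.Results.MP_4f977f_lc.QuasiMinimal
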